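import Pool.Agent.Helper21.LMH.Small

set_option autoImplicit false

/-!
# Locally minimal abelian groups: the character is the tightness of the small subgroups

Let `G` be a Hausdorff abelian group (written additively) which is locally minimal, with witness
`U`, and let `N` be the intersection of symmetric neighbourhoods `W n` of `0` with `W 0 ⊆ U` and
`W (n + 1) + W (n + 1) ⊆ W n`.  The character of `G` is the tightness of every subspace between `N`
and `G`, and it is already seen on the closed subgroups of `G` inside `N` which are compact of prime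
exponent or precompact and torsion-free.
-/

open Topology

namespace Pool.Agent.Results.MP_de131a_gt.PrecompactSubgroups

/-- The topology of `G` has no strictly coarser Hausdorff group topology in which `U` is still a
neighbourhood of `0`. -/
def LocMin (G : Type) [AddCommGroup G] [τ : TopologicalSpace G] (U : Set G) : Prop :=
  ∀ σ : TopologicalSpace G, @IsTopologicalAddGroup G σ _ → @T2Space G σ → τ ≤ σ →
    U ∈ @nhds G σ 0 → σ = τ

/-- The subspace `X` has tightness at most `κ`. -/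
def TightLe {G : Type} [TopologicalSpace G] (X : Set G) (κ : Cardinal.{0}) : Prop :=
  ∀ A ⊆ X, ∀ x ∈ X, x ∈ closure A → ∃ B ⊆ A, Cardinal.mk B ≤ κ ∧ x ∈ closure B

/-- `0` has a neighbourhood base with at most `κ` members. -/
def CharLe (G : Type) [AddCommGroup G] [TopologicalSpace G] (κ : Cardinal.{0}) : Prop :=
  ∃ 𝓑 : Set (Set G), (𝓝 (0 : G)).HasBasis (fun s => s ∈ 𝓑) id ∧ Cardinal.mk 𝓑 ≤ κ

/-- `P` is compact of prime exponent. -/
def CompactPrimeExp {G : Type} [AddCommGroup G] [TopologicalSpace G] (P : AddSubgroup G) : Prop :=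
  IsCompact (P : Set G) ∧ ∃ p : ℕ, p.Prime ∧ ∀ x ∈ P, p • x = 0

/-- `P` is precompact and torsion-free. -/
def PrecompactTorsionFree {G : Type} [AddCommGroup G] [TopologicalSpace G]
    (P : AddSubgroup G) : Prop :=
  (∀ V ∈ 𝓝 (0 : G), ∃ F : Set G, F.Finite ∧ ∀ x ∈ P, ∃ f ∈ F, x - f ∈ V) ∧
    ∀ n : ℕ, n ≠ 0 → ∀ x ∈ P, n • x = 0 → x = 0

theorem result (G : Type) [AddCommGroup G] [TopologicalSpace G] [IsTopologicalAddGroup G]
    [T2Space G] (U : Set G) (hU : U ∈ 𝓝 (0 : G)) (hmin : LocMin G U) :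
    -- the sequences `W` exist
    (∃ W : ℕ → Set G, (∀ n, W n ∈ 𝓝 (0 : G)) ∧ (∀ n, ∀ x ∈ W n, -x ∈ W n) ∧
      (∀ n, ∀ x ∈ W (n + 1), ∀ y ∈ W (n + 1), x + y ∈ W n) ∧ W 0 ⊆ U) ∧
    -- the equivalences, for every such sequence
    ∀ W : ℕ → Set G, (∀ n, W n ∈ 𝓝 (0 : G)) → (∀ n, ∀ x ∈ W n, -x ∈ W n) →
      (∀ n, ∀ x ∈ W (n + 1), ∀ y ∈ W (n + 1), x + y ∈ W n) → W 0 ⊆ U →
      ∀ κ : Cardinal.{0}, Cardinal.aleph0 ≤ κ →
        List.TFAE [
          CharLe G κ,
          TightLe (Set.univ : Set G) κ,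
          ∃ X : Set G, (⋂ n, W n) ⊆ X ∧ TightLe X κ,
          ∀ X : Set G, TightLe X κ,
          ∀ P : AddSubgroup G, IsClosed (P : Set G) → (P : Set G) ⊆ ⋂ n, W n →
            CompactPrimeExp P ∨ PrecompactTorsionFree P → TightLe (P : Set G) κ] := by
  refine ⟨?_, ?_⟩
  · obtain ⟨W, hW, hWU⟩ := Pool.Agent.Helper21.LM.exists_halving hU
    exact ⟨W, hW.1, hW.2.1, hW.2.2, hWU⟩
  · intro W h1 h2 h3 hWU κ hκ
    have hsub : ∀ X Y : Set G, X ⊆ Y → TightLe Y κ → TightLe X κ := by
      intro X Y hXY hY A hA x hx hxA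
      exact hY A (hA.trans hXY) x (hXY hx) hxA
    tfae_have 1 → 4 := by
      rintro ⟨𝓑, h𝓑, hc⟩ X
      apply hsub X Set.univ (Set.subset_univ _)
      intro A _ x _ hxA
      exact Pool.Agent.Helper21.LM.tight_of_base h𝓑 hc A x hxA
    tfae_have 4 → 2 := fun h => h _
    tfae_have 2 → 3 := fun h => ⟨Set.univ, Set.subset_univ _, h⟩
    tfae_have 3 → 5 := by
      rintro ⟨X, hX, ht⟩ P _ hP _
      exact hsub _ _ (hP.trans hX) ht
    tfae_have 5 → 1 := by
      intro h
      have hW : Pool.Agent.Helper21.LM.Halving W := ⟨h1, h2, h3⟩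
      have hs := Pool.Agent.Helper21.LM.sep_locmin (U := U) hmin hW hWU κ hκ (by
        intro P hP hPW hsm
        refine h P hP (fun x hx => Set.mem_iInter.2 (hPW x hx)) ?_
        exact hsm)
      exact Pool.Agent.Helper21.LM.MinOn.base hU hmin κ hκ hs
    tfae_finish

end Pool.Agent.Results.MP_de131a_gt.PrecompactSubgroups
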